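import Pool.Agent.MP_0c1703_gt.H59R.All

namespace Pool.Agent.Results.MP_0c1703_gt.DimOne

open Pool.Agent.MP_0c1703_gt.H58 Pool.Agent.MP_0c1703_gt.H59

theorem result :
    ∀ (Y : Type) [TopologicalSpace Y] [CompactSpace Y] [TopologicalSpace.MetrizableSpace Y],
      ((Nonempty Y ∧ DimLE1 Y ∧
          (∃ (X : Type) (_ : MetricSpace X), GroupSpace X ∧ Nonempty (Bd X ≃ₜ Y)) ∧ ¬ IsSusp Y) ∨
        Good Y ∨
        ∃ (A B : Type) (_ : TopologicalSpace A) (_ : TopologicalSpace B),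
          Good A ∧ Good B ∧ Nonempty (Y ≃ₜ Join A B)) →
      TitsRigid Y → TitsRigid (Join Bool Y) := by
  intro Y _ _ _ h hr
  rcases h with ⟨hn, hd, hX, hs⟩ | h
  · exact final1 Y hd hX hs hr
  · exact final Y h hr

end Pool.Agent.Results.MP_0c1703_gt.DimOne
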